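import Pool.Agent.W98.OS.Defs

set_option autoImplicit false

open Polynomial

namespace Pool.Agent.W597.OS

open Pool.Agent.W98.OS

theorem T_FEW : S_FEW := by
  intro f k
  induction k generalizing f with
  | zero =>
    intro h _
    exact Polynomial.support_eq_empty.1 (Finset.card_eq_zero.1 (by omega))
  | succ k ih =>
    intro h hd
    by_contra hf
    obtain ⟨r, hr⟩ := Polynomial.nonempty_support_iff.2 hf
    set g : ℚ[X] := X * derivative f - C (r : ℚ) * f with hg
    have hcoeff : ∀ e, g.coeff e = ((e : ℚ) - r) * f.coeff e := by
      intro e
      rw [hg, coeff_sub, coeff_C_mul]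
      rcases e with _ | e
      · rw [coeff_X_mul_zero]; push_cast; ring
      · rw [coeff_X_mul, coeff_derivative]; push_cast; ring
    have hsup : g.support ⊆ f.support.erase r := by
      intro e he
      rw [mem_support_iff, hcoeff] at he
      rw [Finset.mem_erase, mem_support_iff]
      refine ⟨?_, right_ne_zero_of_mul he⟩
      rintro rfl
      apply he
      ring
    have hcard : g.support.card ≤ k := by
      have h1 := Finset.card_le_card hsup
      rw [Finset.card_erase_of_mem hr] at h1
      omega
    have hdg : (X - 1) ^ k ∣ g := by
      have h1 : (X - 1 : ℚ[X]) ^ k ∣ derivative f := by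
        have := Polynomial.pow_sub_one_dvd_derivative_of_pow_dvd hd
        simpa using this
      have h2 : (X - 1 : ℚ[X]) ^ k ∣ f := (pow_dvd_pow _ (Nat.le_succ k)).trans hd
      exact dvd_sub (h1.mul_left _) (h2.mul_left _)
    have hg0 := ih g hcard hdg
    have hmon : ∀ e, e ≠ r → f.coeff e = 0 := by
      intro e he
      have h1 := hcoeff e
      rw [hg0, coeff_zero] at h1
      rcases mul_eq_zero.1 h1.symm with h2 | h2
      · exfalso
        apply he
        have : (e : ℚ) = r := by linarith
        exact_mod_cast this
      · exact h2
    have hfe : f = monomial r (f.coeff r) := by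
      ext e
      rw [coeff_monomial]
      split_ifs with h1
      · rw [h1]
      · exact hmon e (fun h2 => h1 h2.symm)
    have hev : f.eval 1 = f.coeff r := by
      conv_lhs => rw [hfe]
      rw [eval_monomial, one_pow, mul_one]
    have h0 : f.eval 1 = 0 := by
      obtain ⟨q, hq⟩ := hd
      rw [hq, eval_mul, eval_pow, eval_sub, eval_X, eval_one, sub_self, pow_succ, mul_zero, zero_mul]
    rw [hev] at h0
    exact (mem_support_iff.1 hr) h0

end Pool.Agent.W597.OS
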