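import Pool.Agent.W98.OS.Defs

set_option autoImplicit false

open Polynomial

namespace Pool.Agent.W597.OS

open Pool.Agent.W98.OS Pool.Agent.W223.Osasm

/-- generating series of a row -/
noncomputable def Cs (a : ℕ) : PowerSeries ℚ := PowerSeries.mk fun b => c a b

/-- the series `x` -/
noncomputable abbrev x : PowerSeries ℚ := PowerSeries.X

/-- the series `1 / (1 - x)` -/
noncomputable def y : PowerSeries ℚ := PowerSeries.mk fun _ => 1

lemma hy : (1 - x) * y = 1 := by
  rw [mul_comm]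
  exact PowerSeries.mk_one_mul_one_sub_eq_one ℚ

lemma mul_x_coeff_zero (F : PowerSeries ℚ) : PowerSeries.coeff 0 (x * F) = 0 := by
  rw [PowerSeries.coeff_zero_X_mul]

lemma mul_x_coeff (F : PowerSeries ℚ) (b : ℕ) : PowerSeries.coeff (b + 1) (x * F) = PowerSeries.coeff b F := by
  rw [PowerSeries.coeff_succ_X_mul]

lemma Cs_coeff (a b : ℕ) : PowerSeries.coeff b (Cs a) = c a b := by
  unfold Cs
  rw [PowerSeries.coeff_mk]

lemma R1 : Cs 0 - x * Cs 0 = x := by
  ext b
  rcases b with _ | _ | b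
  · rw [map_sub, mul_x_coeff_zero, Cs_coeff, c_zero_zero, PowerSeries.coeff_zero_X]; norm_num
  · rw [map_sub, mul_x_coeff, Cs_coeff, Cs_coeff, c_zero_succ, c_zero_zero, PowerSeries.coeff_one_X]; norm_num
  · rw [map_sub, mul_x_coeff, Cs_coeff, Cs_coeff, c_zero_succ, c_zero_succ, PowerSeries.coeff_X, if_neg (by omega)]
    norm_num

lemma R2 : Cs 1 - x * Cs 1 = Cs 0 + x * Cs 0 - x * (x * Cs 0) - 1 := by
  ext b
  rcases b with _ | _ | b
  · simp only [map_sub, map_add, mul_x_coeff_zero, Cs_coeff, PowerSeries.coeff_zero_one]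
    have h1 := c_succ_zero 0
    rw [zero_add] at h1
    rw [h1, c_zero_zero]; norm_num
  · simp only [map_sub, map_add, mul_x_coeff, mul_x_coeff_zero, Cs_coeff]
    have h1 := c_succ_zero 0
    rw [zero_add] at h1
    rw [zero_add, h1, c_zero_zero, c_one_one]
    have h2 := c_zero_succ 0
    rw [zero_add] at h2
    rw [h2, PowerSeries.coeff_one, if_neg (by omega)]; norm_num
  · simp only [map_sub, map_add, mul_x_coeff, Cs_coeff]
    rw [c_one_succ_succ, PowerSeries.coeff_one, if_neg (by omega)]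
    have h2 := c_zero_succ b
    have h3 := c_zero_succ (b + 1)
    rcases b with _ | b
    · rw [zero_add] at h2 h3
      rw [show (0 : ℕ) + 2 = 0 + 1 + 1 from rfl] at *
      have h4 := c_one_one
      simp only [zero_add] at *
      rw [h4, h2, c_zero_zero]
      have h5 := c_zero_succ 1
      norm_num at h5 ⊢
      linarith
    · rw [c_one_succ_succ, h2]
      have h4 := c_zero_succ b
      have h5 := c_zero_succ (b + 1 + 1)
      rw [h5, h3] at *
      first
        | (push_cast; linarith)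
        | (rw [h4]; push_cast; ring)

lemma R3 (a : ℕ) : Cs (a + 2) - x * Cs (a + 2) =
    Cs (a + 1) + x * Cs (a + 1) - x * (x * Cs (a + 1)) - x * Cs a := by
  ext b
  rcases b with _ | _ | b
  · simp only [map_sub, map_add, mul_x_coeff_zero, Cs_coeff]
    have h1 := c_succ_zero (a + 1)
    have h2 := c_succ_zero a
    rw [show a + 2 = a + 1 + 1 from rfl, h1, h2]; norm_num
  · simp only [map_sub, map_add, mul_x_coeff, mul_x_coeff_zero, Cs_coeff]
    rw [zero_add, c_succ_succ_one]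
    have h1 := c_succ_zero (a + 1)
    have h2 := c_succ_zero a
    rw [show a + 2 = a + 1 + 1 from rfl, h1, h2]
    rcases a with _ | a
    · rw [zero_add, c_one_one, c_zero_zero]; norm_num
    · have h3 := c_succ_zero a
      rw [show a + 1 + 1 = a + 2 from rfl, c_succ_succ_one, h3]; push_cast; ring
  · simp only [map_sub, map_add, mul_x_coeff, Cs_coeff]
    have := c_rec a b
    linarith

/-- `1 - x + x ^ 2` -/
noncomputable def kp : PowerSeries ℚ := 1 - x + x ^ 2

lemma x1 : (1 - x : PowerSeries ℚ) ≠ 0 := by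
  intro h
  have := hy
  rw [h, zero_mul] at this
  exact zero_ne_one this

lemma kp0 : kp ≠ 0 := by
  intro h
  have h1 := congrArg PowerSeries.constantCoeff h
  unfold kp at h1
  simp at h1

lemma K (a : ℕ) : kp * Cs a = (1 - x ^ 2) * x ^ a - (1 - 2 * x) * (y * y ^ a) := by
  induction a using Nat.twoStepInduction with
  | zero =>
    refine mul_left_cancel₀ x1 ?_
    unfold kp
    linear_combination (1 - x + x ^ 2) * R1 + (1 - 2 * x) * hy
  | one =>
    refine mul_left_cancel₀ x1 ?_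
    refine mul_left_cancel₀ x1 ?_
    have h1 := R1
    have h2 := R2
    unfold kp
    linear_combination (1 - x + x ^ 2) * (1 - x) * h2 + (1 - x + x ^ 2) * (1 + x - x ^ 2) * h1 +
      (1 - 2 * x) * ((1 - x) * y + 1) * hy
  | more a h1 h2 =>
    refine mul_left_cancel₀ x1 ?_
    have h3 := R3 a
    have e1 : y ^ (a + 1) = y ^ a * y := pow_succ _ _
    have e2 : y ^ (a + 2) = y ^ a * y * y := by ring
    have e3 : x ^ (a + 1) = x ^ a * x := pow_succ _ _
    have e4 : x ^ (a + 2) = x ^ a * x * x := by ring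
    rw [e1, e3] at h2
    rw [e2, e4]
    linear_combination kp * h3 + (1 + x - x ^ 2) * h2 - x * h1 - (1 - 2 * x) * y * y ^ a * (x - y) * hy

/-- the parameter -/
noncomputable def zz : PowerSeries ℚ := -(x ^ 2 * y)

lemma hAB : (x - x ^ 2) * (y - y ^ 2) = zz := by
  unfold zz
  linear_combination (-(x * y)) * hy

lemma hApB : (x - x ^ 2) + (y - y ^ 2) = 3 * zz - zz ^ 2 := by
  unfold zz
  linear_combination (-x + x ^ 2 - y - x * y - x ^ 2 * y - x ^ 3 * y) * hy

/-- evaluations of `NN` -/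
noncomputable def Nz (i : ℕ) : PowerSeries ℚ := aeval zz (NN i)

lemma Nz0 : Nz 0 = 1 := by
  unfold Nz
  show aeval zz (1 : ℚ[X]) = 1
  simp

lemma Nz1 : Nz 1 = (x - x ^ 2) + (y - y ^ 2) := by
  unfold Nz
  show aeval zz (3 * X - X ^ 2 : ℚ[X]) = _
  have h3 : aeval zz (3 : ℚ[X]) = 3 := map_ofNat _ 3
  rw [hApB]
  simp [h3]

lemma Nz2 (i : ℕ) : Nz (i + 2) = ((x - x ^ 2) + (y - y ^ 2)) * Nz (i + 1) - (x - x ^ 2) * (y - y ^ 2) * Nz i := by
  unfold Nz
  show aeval zz ((3 * X - X ^ 2) * NN (i + 1) - X * NN i : ℚ[X]) = _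
  have h3 : aeval zz (3 : ℚ[X]) = 3 := map_ofNat _ 3
  rw [hApB, hAB]
  simp [h3]

/-- `N_i + 2 N_(i-1)` -/
noncomputable def Mz : ℕ → PowerSeries ℚ
  | 0 => Nz 0
  | (i + 1) => Nz (i + 1) + 2 * Nz i

lemma Mz2 (i : ℕ) : Mz (i + 2) = ((x - x ^ 2) + (y - y ^ 2)) * Mz (i + 1) - (x - x ^ 2) * (y - y ^ 2) * Mz i := by
  rcases i with _ | i
  · show Nz 2 + 2 * Nz 1 = _ * (Nz 1 + 2 * Nz 0) - _ * Nz 0
    rw [Nz2 0, zero_add, Nz1, Nz0]
    ring
  · show Nz (i + 3) + 2 * Nz (i + 2) = _ * (Nz (i + 2) + 2 * Nz (i + 1)) - _ * (Nz (i + 1) + 2 * Nz i)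
    have h1 := Nz2 (i + 1)
    have h2 := Nz2 i
    rw [show i + 1 + 2 = i + 3 from rfl, show i + 1 + 1 = i + 2 from rfl] at h1
    linear_combination h1 + 2 * h2

lemma M (i : ℕ) : (1 - x ^ 2) * (x - x ^ 2) ^ i - (1 - 2 * x) * (y * (y - y ^ 2) ^ i) = kp * (x * y * Mz i) := by
  induction i using Nat.twoStepInduction with
  | zero =>
    show _ = kp * (x * y * Nz 0)
    rw [Nz0]
    unfold kp
    linear_combination (-1 + x ^ 2) * hy
  | one =>
    show _ = kp * (x * y * (Nz 1 + 2 * Nz 0))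
    rw [Nz0, Nz1]
    unfold kp
    linear_combination (-x + x ^ 2 + x ^ 3 - x ^ 4 + x * y + x ^ 2 * y + y ^ 2 - x ^ 2 * y ^ 2) * hy
  | more i h1 h2 =>
    rw [Mz2]
    have e1 : (x - x ^ 2) ^ (i + 1) = (x - x ^ 2) ^ i * (x - x ^ 2) := pow_succ _ _
    have e2 : (x - x ^ 2) ^ (i + 2) = (x - x ^ 2) ^ i * (x - x ^ 2) * (x - x ^ 2) := by ring
    have e3 : (y - y ^ 2) ^ (i + 1) = (y - y ^ 2) ^ i * (y - y ^ 2) := pow_succ _ _
    have e4 : (y - y ^ 2) ^ (i + 2) = (y - y ^ 2) ^ i * (y - y ^ 2) * (y - y ^ 2) := by ring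
    rw [e1, e3] at h2
    rw [e2, e4]
    linear_combination ((x - x ^ 2) + (y - y ^ 2)) * h2 - (x - x ^ 2) * (y - y ^ 2) * h1

lemma NN4 (i : ℕ) : (NN i).eval 4 = ((i : ℚ) + 1) * (-2) ^ i := by
  induction i using Nat.twoStepInduction with
  | zero => simp [NN]
  | one =>
    show (3 * X - X ^ 2 : ℚ[X]).eval 4 = _
    simp; norm_num
  | more i h1 h2 =>
    show ((3 * X - X ^ 2) * NN (i + 1) - X * NN i : ℚ[X]).eval 4 = _
    rw [eval_sub, eval_mul, eval_mul, h1, h2]
    simp only [eval_sub, eval_mul, eval_X, eval_pow, eval_ofNat]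
    push_cast
    rw [pow_succ, pow_succ]
    ring

/-- the coefficients -/
noncomputable def Pc (lam : ℕ → ℚ) (n i : ℕ) : ℚ := ∑ j ∈ Finset.Ico i (n + 1), (-2) ^ (j - i) * lam j

lemma Pc_top (lam : ℕ → ℚ) (n : ℕ) : Pc lam n (n + 1) = 0 := by
  unfold Pc; simp

lemma Pc_rec (lam : ℕ → ℚ) (n i : ℕ) (h : i ≤ n) : Pc lam n i + 2 * Pc lam n (i + 1) = lam i := by
  unfold Pc
  rw [Finset.sum_eq_sum_Ico_succ_bot (by omega), Finset.mul_sum, Nat.sub_self, pow_zero, one_mul, add_assoc,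
    ← Finset.sum_add_distrib, Finset.sum_eq_zero, add_zero]
  intro j hj
  rw [Finset.mem_Ico] at hj
  have : j - i = (j - (i + 1)) + 1 := by omega
  rw [this, pow_succ]
  ring

/-- Abel summation -/
lemma abel_sum {R : Type} [CommRing R] [Algebra ℚ R] (lam : ℕ → ℚ) (n : ℕ) (F Fm : ℕ → R) (h0 : Fm 0 = 0)
    (h1 : ∀ i, Fm (i + 1) = F i) :
    ∑ i ∈ Finset.range (n + 1), algebraMap ℚ R (Pc lam n i) * (F i + 2 * Fm i) =
      ∑ i ∈ Finset.range (n + 1), algebraMap ℚ R (lam i) * F i := by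
  have e1 : ∑ i ∈ Finset.range (n + 1), algebraMap ℚ R (Pc lam n i) * Fm i =
      ∑ i ∈ Finset.range (n + 1), algebraMap ℚ R (Pc lam n (i + 1)) * F i := by
    rw [Finset.sum_range_succ', Finset.sum_range_succ _ n, h0, mul_zero, add_zero, Pc_top, map_zero, zero_mul, add_zero]
    refine Finset.sum_congr rfl fun i _ => ?_
    rw [h1]
  have e2 : ∑ i ∈ Finset.range (n + 1), algebraMap ℚ R (Pc lam n i) * (F i + 2 * Fm i) =
      ∑ i ∈ Finset.range (n + 1), algebraMap ℚ R (Pc lam n i) * F i +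
      2 * ∑ i ∈ Finset.range (n + 1), algebraMap ℚ R (Pc lam n i) * Fm i := by
    rw [Finset.mul_sum, ← Finset.sum_add_distrib]
    refine Finset.sum_congr rfl fun i _ => ?_
    ring
  rw [e2, e1, Finset.mul_sum, ← Finset.sum_add_distrib]
  refine Finset.sum_congr rfl fun i hi => ?_
  rw [Finset.mem_range] at hi
  rw [← Pc_rec lam n i (by omega), map_add, map_mul, map_ofNat]
  ring

/-- the polynomial -/
noncomputable def pk (lam : ℕ → ℚ) (n : ℕ) : ℚ[X] :=
  C ((-1) ^ n) * ∑ i ∈ Finset.range (n + 1), C (Pc lam n i) * (X - X ^ 2) ^ i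

lemma qdeg (i : ℕ) : ((X - X ^ 2 : ℚ[X]) ^ i).natDegree ≤ 2 * i := by
  have h1 := natDegree_pow_le (p := (X - X ^ 2 : ℚ[X])) (n := i)
  have h2 : (X - X ^ 2 : ℚ[X]).natDegree ≤ 2 := by compute_degree
  nlinarith

lemma qcoeff (i : ℕ) : ((X - X ^ 2 : ℚ[X]) ^ i).coeff (2 * i) = (-1) ^ i := by
  induction i with
  | zero => simp
  | succ i ih =>
    have h2 : (X - X ^ 2 : ℚ[X]).natDegree ≤ 2 := by compute_degree
    have h3 : (X - X ^ 2 : ℚ[X]).coeff 2 = -1 := by
      rw [coeff_sub, coeff_X, coeff_X_pow]; norm_num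
    rw [pow_succ, show 2 * (i + 1) = 2 * i + 2 by ring, coeff_mul_add_eq_of_natDegree_le (qdeg i) h2, ih, h3]
    ring

lemma pk_deg (lam : ℕ → ℚ) (n : ℕ) : (pk lam n).natDegree ≤ 2 * n := by
  unfold pk
  refine (natDegree_C_mul_le _ _).trans (natDegree_sum_le_of_forall_le _ _ fun i hi => ?_)
  rw [Finset.mem_range] at hi
  refine (natDegree_C_mul_le _ _).trans ((qdeg i).trans ?_)
  omega

lemma pk_coeff (lam : ℕ → ℚ) (n : ℕ) (h : lam n = 1) : (pk lam n).coeff (2 * n) = 1 := by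
  unfold pk
  rw [coeff_C_mul, finsetSum_coeff, Finset.sum_range_succ, Finset.sum_eq_zero]
  · rw [coeff_C_mul, qcoeff, zero_add]
    have : Pc lam n n = 1 := by
      have := Pc_rec lam n n le_rfl
      rw [Pc_top] at this
      linarith
    rw [this, one_mul, ← mul_pow]
    norm_num
  · intro i hi
    rw [Finset.mem_range] at hi
    have := qdeg i
    rw [coeff_C_mul, coeff_eq_zero_of_natDegree_lt (by omega), mul_zero]

theorem T_KER (hL : S_L) (hP : S_PE) : S_KER := by
  intro n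
  obtain ⟨lam, hlam, hsum⟩ := hL n
  obtain ⟨_, _, hP0, hP4⟩ := hP n
  have hc0 : cst n ≠ 0 := by
    unfold cst
    have h1 : (0 : ℚ) < ((4 * n + 2).choose (2 * n + 1) : ℚ) := by
      have : 0 < (4 * n + 2).choose (2 * n + 1) := Nat.choose_pos (by omega)
      exact_mod_cast this
    positivity
  set p := pk lam n with hp
  have hpd : p.natDegree ≤ 2 * n := pk_deg lam n
  -- the series
  set S : PowerSeries ℚ := ∑ a ∈ Finset.range (2 * n + 1), algebraMap ℚ (PowerSeries ℚ) (p.coeff a) * Cs a with hS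
  have hScoeff : ∀ b, PowerSeries.coeff b S = ∑ a ∈ Finset.range (2 * n + 1), p.coeff a * c a b := by
    intro b
    rw [hS, map_sum]
    refine Finset.sum_congr rfl fun a _ => ?_
    rw [← Algebra.smul_def, PowerSeries.coeff_smul, Cs_coeff, smul_eq_mul]
  have haev : ∀ t : PowerSeries ℚ, aeval t p = ∑ a ∈ Finset.range (2 * n + 1),
      algebraMap ℚ (PowerSeries ℚ) (p.coeff a) * t ^ a := by
    intro t
    rw [aeval_eq_sum_range' (n := 2 * n + 1) (by omega)]
    refine Finset.sum_congr rfl fun a _ => ?_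
    rw [Algebra.smul_def]
  have haev2 : ∀ t : PowerSeries ℚ, aeval t p = algebraMap ℚ (PowerSeries ℚ) ((-1) ^ n) *
      ∑ i ∈ Finset.range (n + 1), algebraMap ℚ (PowerSeries ℚ) (Pc lam n i) * (t - t ^ 2) ^ i := by
    intro t
    rw [hp]
    unfold pk
    rw [map_mul, aeval_C, map_sum]
    congr 1
    refine Finset.sum_congr rfl fun i _ => ?_
    rw [map_mul, aeval_C, map_pow, map_sub, map_pow, aeval_X]
  have hkS : kp * S = (1 - x ^ 2) * aeval x p - (1 - 2 * x) * (y * aeval y p) := by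
    rw [haev, haev, hS, Finset.mul_sum, Finset.mul_sum, Finset.mul_sum, Finset.mul_sum, ← Finset.sum_sub_distrib]
    refine Finset.sum_congr rfl fun a _ => ?_
    have := K a
    linear_combination algebraMap ℚ (PowerSeries ℚ) (p.coeff a) * this
  have hkS2 : kp * S = kp * (x * y * (algebraMap ℚ (PowerSeries ℚ) ((-1) ^ n) *
      ∑ i ∈ Finset.range (n + 1), algebraMap ℚ (PowerSeries ℚ) (Pc lam n i) * Mz i)) := by
    rw [hkS, haev2, haev2]
    simp only [Finset.mul_sum]
    rw [← Finset.sum_sub_distrib]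
    refine Finset.sum_congr rfl fun i _ => ?_
    have := M i
    linear_combination (algebraMap ℚ (PowerSeries ℚ) ((-1) ^ n) * algebraMap ℚ (PowerSeries ℚ) (Pc lam n i)) * this
  have hS3 := mul_left_cancel₀ kp0 hkS2
  have hMsum : ∑ i ∈ Finset.range (n + 1), algebraMap ℚ (PowerSeries ℚ) (Pc lam n i) * Mz i =
      ∑ i ∈ Finset.range (n + 1), algebraMap ℚ (PowerSeries ℚ) (lam i) * Nz i := by
    have h1 := abel_sum (R := PowerSeries ℚ) lam n Nz (fun i => match i with | 0 => 0 | (i + 1) => Nz i) rfl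
      (fun i => rfl)
    rw [← h1]
    refine Finset.sum_congr rfl fun i _ => ?_
    rcases i with _ | i
    · show _ * Nz 0 = _ * (Nz 0 + 2 * 0)
      rw [mul_zero, add_zero]
    · rfl
  have hNsum : ∑ i ∈ Finset.range (n + 1), algebraMap ℚ (PowerSeries ℚ) (lam i) * Nz i =
      algebraMap ℚ (PowerSeries ℚ) (cst n)⁻¹ * zz ^ n * aeval zz (Pe n) := by
    have h1 := congrArg (aeval zz) hsum
    rw [map_sum, map_mul, map_mul, aeval_C, map_pow, aeval_X] at h1
    rw [← h1]
    refine Finset.sum_congr rfl fun i _ => ?_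
    rw [map_mul, aeval_C]
    rfl
  have hS4 : S = x ^ (2 * n + 1) * (algebraMap ℚ (PowerSeries ℚ) (cst n)⁻¹ * y ^ (n + 1) * aeval zz (Pe n)) := by
    rw [hS3, hMsum, hNsum]
    have h1 : algebraMap ℚ (PowerSeries ℚ) ((-1) ^ n) * zz ^ n = x ^ (2 * n) * y ^ n := by
      unfold zz
      have h9 : algebraMap ℚ (PowerSeries ℚ) ((-1) ^ n) = (-1) ^ n := by
        rw [map_pow, map_neg, map_one]
      rw [h9, ← mul_pow, pow_mul, ← mul_pow]
      congr 1
      ring
    linear_combination (x * y * algebraMap ℚ (PowerSeries ℚ) (cst n)⁻¹ * aeval zz (Pe n)) * h1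
  refine ⟨p, hpd, pk_coeff lam n hlam, ?_, ?_, ?_⟩
  · intro b hb
    rw [← hScoeff, hS4, PowerSeries.coeff_X_pow_mul', if_neg (by omega)]
  · rw [← hScoeff, hS4, PowerSeries.coeff_X_pow_mul', if_pos le_rfl, Nat.sub_self, PowerSeries.coeff_zero_eq_constantCoeff_apply]
    have h1 : PowerSeries.constantCoeff (aeval zz (Pe n)) = (Pe n).eval 0 := by
      have h2 : PowerSeries.constantCoeff zz = 0 := by
        unfold zz
        simp
      have h3 : ∀ q : ℚ[X], PowerSeries.constantCoeff (aeval zz q) = q.eval 0 := by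
        intro q
        induction q using Polynomial.induction_on' with
        | add p q hp hq => rw [map_add, map_add, hp, hq, eval_add]
        | monomial k a =>
          rw [aeval_monomial, map_mul, map_pow, h2, eval_monomial]
          congr 1
      exact h3 _
    have h4 : PowerSeries.constantCoeff (algebraMap ℚ (PowerSeries ℚ) (cst n)⁻¹) = (cst n)⁻¹ := rfl
    have h5 : PowerSeries.constantCoeff y = 1 := by
      unfold y
      rw [← PowerSeries.coeff_zero_eq_constantCoeff_apply, PowerSeries.coeff_mk]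
    rw [map_mul, map_mul, map_pow, h1, h4, h5, one_pow, mul_one, hP0]
    unfold hh cst
    have h6 : ((4 * n + 2).choose (2 * n + 1) : ℚ) ≠ 0 := by
      have : 0 < (4 * n + 2).choose (2 * n + 1) := Nat.choose_pos (by omega)
      exact_mod_cast this.ne'
    have h7 : (4 : ℚ) ^ n = 2 ^ (2 * n) := by rw [pow_mul]; norm_num
    rw [h7, pow_succ]
    field_simp
  · have h1 : p.eval 2 = (-1) ^ n * ∑ i ∈ Finset.range (n + 1), Pc lam n i * (-2) ^ i := by
      rw [hp]
      unfold pk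
      rw [eval_mul, eval_C, eval_finsetSum]
      congr 1
      refine Finset.sum_congr rfl fun i _ => ?_
      simp only [eval_mul, eval_C, eval_pow, eval_sub, eval_X]
      norm_num
    have h2 : ∑ i ∈ Finset.range (n + 1), Pc lam n i * (-2) ^ i =
        ∑ i ∈ Finset.range (n + 1), lam i * (NN i).eval 4 := by
      have h3 := abel_sum (R := ℚ) lam n (fun i => (NN i).eval 4)
        (fun i => match i with | 0 => 0 | (i + 1) => (NN i).eval 4) rfl (fun i => rfl)
      simp only [Algebra.algebraMap_self, RingHom.id_apply] at h3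
      rw [← h3]
      refine Finset.sum_congr rfl fun i _ => ?_
      congr 1
      rcases i with _ | i
      · rw [NN4]; simp
      · show (-2 : ℚ) ^ (i + 1) = (NN (i + 1)).eval 4 + 2 * (NN i).eval 4
        rw [NN4, NN4]
        push_cast
        rw [pow_succ]
        ring
    have h4 : ∑ i ∈ Finset.range (n + 1), lam i * (NN i).eval 4 = (cst n)⁻¹ * 4 ^ n * (Pe n).eval 4 := by
      have h5 := congrArg (eval (4 : ℚ)) hsum
      rw [eval_finsetSum] at h5
      simp only [eval_mul, eval_C, eval_pow, eval_X] at h5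
      exact h5
    rw [h1, h2, h4, hP4]
    unfold ff cst
    have h6 : ((4 * n + 2).choose (2 * n + 1) : ℚ) ≠ 0 := by
      have : 0 < (4 * n + 2).choose (2 * n + 1) := Nat.choose_pos (by omega)
      exact_mod_cast this.ne'
    have h7 : (4 : ℚ) ^ n = 2 ^ (2 * n) := by rw [pow_mul]; norm_num
    have h8 : ((-1 : ℚ) ^ n) * (-1) ^ n = 1 := by rw [← mul_pow]; norm_num
    rw [h7, pow_succ]
    have h9 : (-1 : ℚ) ^ n * ((2 ^ (2 * n) * 2 * ((4 * n + 2).choose (2 * n + 1) : ℚ))⁻¹ * 2 ^ (2 * n) *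
        ((-1) ^ n * 2 ^ (2 * n) * (6 * n + 4) * ((3 * n + 1).choose n : ℚ))) = ((-1 : ℚ) ^ n * (-1) ^ n) *
        ((2 ^ (2 * n) * 2 * ((4 * n + 2).choose (2 * n + 1) : ℚ))⁻¹ * 2 ^ (2 * n) *
        (2 ^ (2 * n) * (6 * n + 4) * ((3 * n + 1).choose n : ℚ))) := by ring
    rw [h9, h8, one_mul]
    field_simp

end Pool.Agent.W597.OS
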