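import Pool.Agent.W98.OS.Defs

set_option autoImplicit false

open Polynomial

namespace Pool.Agent.W597.OS

open Pool.Agent.W98.OS

lemma NN_deg : ∀ i : ℕ, (NN i).natDegree ≤ 2 * i ∧ (NN i).coeff (2 * i) = (-1) ^ i := by
  intro i
  induction i using Nat.twoStepInduction with
  | zero => simp [NN]
  | one =>
    constructor
    · show (3 * X - X ^ 2 : ℚ[X]).natDegree ≤ 2
      compute_degree
    · show (3 * X - X ^ 2 : ℚ[X]).coeff 2 = (-1) ^ 1
      have : (3 * X - X ^ 2 : ℚ[X]) = C 3 * X - X ^ 2 := by rw [show (C (3 : ℚ) : ℚ[X]) = 3 from rfl]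
      rw [this, coeff_sub, coeff_C_mul, coeff_X, coeff_X_pow]
      norm_num
  | more i h1 h2 =>
    have hd1 : (3 * X - X ^ 2 : ℚ[X]).natDegree ≤ 2 := by compute_degree
    have hc1 : (3 * X - X ^ 2 : ℚ[X]).coeff 2 = -1 := by
      have : (3 * X - X ^ 2 : ℚ[X]) = C 3 * X - X ^ 2 := by rw [show (C (3 : ℚ) : ℚ[X]) = 3 from rfl]
      rw [this, coeff_sub, coeff_C_mul, coeff_X, coeff_X_pow]
      norm_num
    have hrec : NN (i + 2) = (3 * X - X ^ 2) * NN (i + 1) - X * NN i := rfl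
    have hd2 : (X * NN i).natDegree ≤ 2 * i + 1 := by
      have := natDegree_mul_le (p := (X : ℚ[X])) (q := NN i)
      rw [natDegree_X] at this
      omega
    have hd3 : ((3 * X - X ^ 2) * NN (i + 1)).natDegree ≤ 2 * (i + 2) := by
      have := natDegree_mul_le (p := (3 * X - X ^ 2 : ℚ[X])) (q := NN (i + 1))
      omega
    constructor
    · rw [hrec]
      refine (natDegree_sub_le _ _).trans (max_le hd3 (by omega))
    · rw [hrec, coeff_sub, coeff_eq_zero_of_natDegree_lt (p := X * NN i) (by omega)]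
      have h5 : 2 * (i + 2) = 2 + 2 * (i + 1) := by ring
      rw [h5, coeff_mul_add_eq_of_natDegree_le hd1 h2.1, hc1, h2.2]
      ring

/-- top coefficients of combinations -/
lemma comb_coeff (lam : ℕ → ℚ) (m : ℕ) :
    (∑ i ∈ Finset.range (m + 1), C (lam i) * NN i).coeff (2 * m) = (-1) ^ m * lam m := by
  rw [finsetSum_coeff, Finset.sum_range_succ, Finset.sum_eq_zero]
  · rw [coeff_C_mul, (NN_deg m).2]; ring
  · intro i hi
    have := (NN_deg i).1
    rw [Finset.mem_range] at hi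
    rw [coeff_C_mul, coeff_eq_zero_of_natDegree_lt (by omega), mul_zero]

lemma comb_deg (lam : ℕ → ℚ) (m : ℕ) :
    (∑ i ∈ Finset.range (m + 1), C (lam i) * NN i).natDegree ≤ 2 * m := by
  refine natDegree_sum_le_of_forall_le _ _ fun i hi => ?_
  rw [Finset.mem_range] at hi
  refine (natDegree_C_mul_le _ _).trans ?_
  have := (NN_deg i).1
  omega

lemma comb_ne (lam : ℕ → ℚ) (n : ℕ) (h : ∃ i ≤ n, lam i ≠ 0) :
    ∑ i ∈ Finset.range (n + 1), C (lam i) * NN i ≠ 0 := by
  induction n with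
  | zero =>
    obtain ⟨i, hi, hl⟩ := h
    have : i = 0 := by omega
    subst this
    intro h0
    have := comb_coeff lam 0
    rw [h0] at this
    simp at this
    exact hl this.symm
  | succ n ih =>
    by_cases hn : lam (n + 1) = 0
    · rw [Finset.sum_range_succ, hn, C_0, zero_mul, add_zero]
      apply ih
      obtain ⟨i, hi, hl⟩ := h
      refine ⟨i, ?_, hl⟩
      rcases Nat.lt_or_ge n i with h1 | h1
      · exfalso
        have : i = n + 1 := by omega
        rw [this] at hl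
        exact hl hn
      · exact h1
    · intro h0
      have h1 := comb_coeff lam (n + 1)
      rw [h0, coeff_zero] at h1
      have h2 : (-1 : ℚ) ^ (n + 1) ≠ 0 := pow_ne_zero _ (by norm_num)
      rcases mul_eq_zero.1 h1.symm with h3 | h3
      · exact h2 h3
      · exact hn h3

lemma skip_add {E F : ℚ[X]} (h1 : Skip E) (h2 : Skip F) : Skip (E + F) := by
  intro k
  rw [coeff_add, h1 k, h2 k, add_zero]

lemma skip_C {E : ℚ[X]} (a : ℚ) (h1 : Skip E) : Skip (C a * E) := by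
  intro k
  rw [coeff_C_mul, h1 k, mul_zero]

lemma skip_mul {E : ℚ[X]} (h1 : Skip E) : Skip ((X ^ 3 - 1) * E) := by
  intro k
  rw [sub_mul, one_mul, coeff_sub, h1 k, sub_zero, coeff_X_pow_mul']
  split_ifs with h
  · obtain ⟨m, rfl⟩ : ∃ m, k = m + 1 := ⟨k - 1, by omega⟩
    have : 3 * (m + 1) + 2 - 3 = 3 * m + 2 := by omega
    rw [this]
    exact h1 m
  · rfl

lemma skip_pow {E : ℚ[X]} (h1 : Skip E) (m : ℕ) : Skip ((X ^ 3 - 1) ^ m * E) := by
  induction m with
  | zero => simpa using h1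
  | succ m ih =>
    rw [pow_succ', mul_assoc]
    exact skip_mul ih

lemma skip_sum {s : Finset ℕ} {f : ℕ → ℚ[X]} (h : ∀ i ∈ s, Skip (f i)) : Skip (∑ i ∈ s, f i) := by
  intro k
  rw [finsetSum_coeff]
  exact Finset.sum_eq_zero fun i hi => h i hi k

theorem T_L (hN : S_NV) (hM : S_M) (hP : S_PE) (hU : S_U) : S_L := by
  intro n
  -- a combination of low order
  obtain ⟨lam, hlam1, hlam2⟩ : ∃ lam : ℕ → ℚ, (∃ i ≤ n, lam i ≠ 0) ∧
      ∀ j < n, (∑ i ∈ Finset.range (n + 1), C (lam i) * NN i).coeff j = 0 := by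
    let f : (Fin (n + 1) → ℚ) →ₗ[ℚ] (Fin n → ℚ) :=
      { toFun := fun l j => ∑ i : Fin (n + 1), l i * (NN i).coeff j
        map_add' := by
          intro l l'
          funext j
          simp only [Pi.add_apply, add_mul, Finset.sum_add_distrib]
        map_smul' := by
          intro a l
          funext j
          simp only [Pi.smul_apply, smul_eq_mul, RingHom.id_apply, Finset.mul_sum, mul_assoc] }
    have hker : LinearMap.ker f ≠ ⊥ := by
      refine LinearMap.ker_ne_bot_of_finrank_lt ?_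
      simp
    obtain ⟨l, hl, hl0⟩ := Submodule.exists_mem_ne_zero_of_ne_bot hker
    have hl' : f l = 0 := hl
    refine ⟨fun i => if h : i < n + 1 then l ⟨i, h⟩ else 0, ?_, ?_⟩
    · obtain ⟨i, hi⟩ := Function.ne_iff.1 hl0
      refine ⟨i, Nat.lt_succ_iff.1 i.2, ?_⟩
      show (if h : (i : ℕ) < n + 1 then l ⟨i, h⟩ else 0) ≠ 0
      rw [dif_pos i.2]
      exact hi
    · intro j hj
      have h1 := congrFun hl' ⟨j, hj⟩
      have h2 : ∑ i : Fin (n + 1), l i * (NN i).coeff j = 0 := h1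
      rw [finsetSum_coeff, Finset.sum_range, ← h2]
      refine Finset.sum_congr rfl fun i _ => ?_
      rw [coeff_C_mul]
      congr 1
      exact dif_pos i.2
  set G : ℚ[X] := ∑ i ∈ Finset.range (n + 1), C (lam i) * NN i with hG
  have hG0 : G ≠ 0 := comb_ne lam n hlam1
  obtain ⟨P, hPdef⟩ : X ^ n ∣ G := X_pow_dvd_iff.2 hlam2
  have hP0 : P ≠ 0 := by
    rintro rfl
    rw [mul_zero] at hPdef
    exact hG0 hPdef
  have hPd : P.natDegree ≤ n := by
    have h1 := comb_deg lam n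
    rw [← hG, hPdef, natDegree_mul (pow_ne_zero _ X_ne_zero) hP0, natDegree_X_pow] at h1
    omega
  choose E hE1 hE2 using hN
  have hPU : ∃ E : ℚ[X], Skip E ∧ ∀ v : ℚ,
      E.eval v = (v ^ 2 - 1) * (v - 1) ^ (4 * n + 2) * (v ^ 2 + v + 1) ^ n * P.eval (wv v) := by
    refine ⟨∑ i ∈ Finset.range (n + 1), C (lam i) * ((X ^ 3 - 1) ^ (2 * n - 2 * i) * E i), ?_, ?_⟩
    · exact skip_sum fun i _ => skip_C _ (skip_pow (hE1 i) _)
    · intro v
      have hq : v ^ 2 + v + 1 ≠ 0 := by nlinarith [sq_nonneg (v + 1), sq_nonneg v]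
      have h1 : (∑ i ∈ Finset.range (n + 1), C (lam i) * ((X ^ 3 - 1) ^ (2 * n - 2 * i) * E i)).eval v =
          (v ^ 2 - 1) * (v - 1) ^ 2 * (v ^ 3 - 1) ^ (2 * n) * G.eval (wv v) := by
        rw [hG, eval_finsetSum, eval_finsetSum, Finset.mul_sum]
        refine Finset.sum_congr rfl fun i hi => ?_
        rw [Finset.mem_range] at hi
        have h2 : (v ^ 3 - 1) ^ (2 * n) = (v ^ 3 - 1) ^ (2 * n - 2 * i) * (v ^ 3 - 1) ^ (2 * i) := by
          rw [← pow_add]; congr 1; omega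
        simp only [eval_mul, eval_C, eval_pow, eval_sub, eval_X, eval_one, hE2]
        rw [h2]
        ring
      rw [h1, hPdef, eval_mul, eval_pow, eval_X]
      have h3 : (v ^ 3 - 1) ^ (2 * n) * (wv v) ^ n = ((v - 1) ^ 4 * (v ^ 2 + v + 1)) ^ n := by
        rw [pow_mul, ← mul_pow]
        congr 1
        unfold wv
        have h5 : v ^ 3 - 1 = (v - 1) * (v ^ 2 + v + 1) := by ring
        rw [h5, ← mul_div_assoc, div_eq_iff hq]
        ring
      have h4 : ((v - 1) ^ 4 * (v ^ 2 + v + 1)) ^ n = (v - 1) ^ (4 * n) * (v ^ 2 + v + 1) ^ n := by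
        rw [mul_pow, ← pow_mul]
      calc (v ^ 2 - 1) * (v - 1) ^ 2 * (v ^ 3 - 1) ^ (2 * n) * (wv v ^ n * P.eval (wv v))
          = (v ^ 2 - 1) * (v - 1) ^ 2 * ((v ^ 3 - 1) ^ (2 * n) * wv v ^ n) * P.eval (wv v) := by ring
        _ = _ := by rw [h3, h4]; ring
  obtain ⟨q1, q2, q3, _⟩ := hP n
  have hUU := hU n P (Pe n) hPd q1 hPU (hM n)
  have hPe0 : (Pe n).eval 0 ≠ 0 := by
    rw [q3]
    have h1 : (0 : ℚ) < ((6 * n + 4).choose (2 * n + 1) : ℚ) := by
      have : 0 < (6 * n + 4).choose (2 * n + 1) := Nat.choose_pos (by omega)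
      exact_mod_cast this
    positivity
  set k : ℚ := P.eval 0 / (Pe n).eval 0 with hk
  have hPk : P = C k * Pe n := by
    have h1 : C ((Pe n).eval 0)⁻¹ * (C (P.eval 0) * Pe n) = C ((Pe n).eval 0)⁻¹ * (C ((Pe n).eval 0) * P) := by
      rw [hUU]
    rw [← mul_assoc, ← mul_assoc, ← C_mul, ← C_mul, inv_mul_cancel₀ hPe0, C_1, one_mul] at h1
    rw [← h1, hk]
    congr 2
    ring
  have hk0 : k ≠ 0 := by
    intro h
    rw [h, C_0, zero_mul] at hPk
    exact hP0 hPk
  have hcst : cst n ≠ 0 := by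
    unfold cst
    have h1 : (0 : ℚ) < ((4 * n + 2).choose (2 * n + 1) : ℚ) := by
      have : 0 < (4 * n + 2).choose (2 * n + 1) := Nat.choose_pos (by omega)
      exact_mod_cast this
    positivity
  have hlamn : lam n = k * cst n := by
    have h1 := comb_coeff lam n
    rw [← hG, hPdef, hPk] at h1
    have h2 : 2 * n = n + n := by ring
    rw [h2, coeff_X_pow_mul, coeff_C_mul, q2] at h1
    have h3 : (-1 : ℚ) ^ n ≠ 0 := pow_ne_zero _ (by norm_num)
    have h4 : (-1 : ℚ) ^ n * (k * cst n) = (-1) ^ n * lam n := by rw [← h1]; ring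
    exact (mul_left_cancel₀ h3 h4).symm
  refine ⟨fun i => (k * cst n)⁻¹ * lam i, ?_, ?_⟩
  · simp only [hlamn]
    exact inv_mul_cancel₀ (mul_ne_zero hk0 hcst)
  · have h1 : ∑ i ∈ Finset.range (n + 1), C ((k * cst n)⁻¹ * lam i) * NN i = C (k * cst n)⁻¹ * G := by
      rw [hG, Finset.mul_sum]
      refine Finset.sum_congr rfl fun i _ => ?_
      rw [C_mul, mul_assoc]
    rw [h1, hPdef, hPk]
    have h2 : C (k * cst n)⁻¹ * C k = (C (cst n)⁻¹ : ℚ[X]) := by
      rw [← C_mul]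
      congr 1
      field_simp
    rw [← h2]
    ring

end Pool.Agent.W597.OS
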