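import Pool.Agent.W98.OS.Defs

set_option autoImplicit false

open Polynomial

namespace Pool.Agent.W597.OS

open Pool.Agent.W98.OS

lemma qpos (v : ℚ) : 0 < v ^ 2 + v + 1 := by nlinarith [sq_nonneg (v + 1), sq_nonneg v]

/-- homogenised polynomial -/
noncomputable def hom (n : ℕ) (T : ℚ[X]) : ℚ[X] :=
  ∑ j ∈ Finset.range (n + 1), C (T.coeff j) * ((X - 1) ^ (2 * j) * (X ^ 2 + X + 1) ^ (n - j))

lemma hom_eval (n : ℕ) (T : ℚ[X]) (hT : T.natDegree ≤ n) (v : ℚ) :
    (hom n T).eval v = (v ^ 2 + v + 1) ^ n * T.eval (wv v) := by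
  rw [eval_eq_sum_range' (Nat.lt_succ_of_le hT), Finset.mul_sum]
  unfold hom
  rw [eval_finsetSum]
  refine Finset.sum_congr rfl fun j hj => ?_
  have hj' : j ≤ n := Nat.lt_succ_iff.1 (Finset.mem_range.1 hj)
  have hq := (qpos v).ne'
  simp only [eval_mul, eval_C, eval_pow, eval_sub, eval_X, eval_one, eval_add]
  unfold wv
  have h1 : (v ^ 2 + v + 1) ^ n = (v ^ 2 + v + 1) ^ (n - j) * (v ^ 2 + v + 1) ^ j := by
    rw [← pow_add]; congr 1; omega
  have h2 : ((v ^ 2 + v + 1) ^ j) * ((v - 1) ^ 2 / (v ^ 2 + v + 1)) ^ j = (v - 1) ^ (2 * j) := by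
    rw [← mul_pow, mul_div_cancel₀ _ hq, ← pow_mul]
  rw [h1, ← h2]
  ring

lemma hom_deg (n : ℕ) (T : ℚ[X]) : (hom n T).natDegree ≤ 2 * n := by
  unfold hom
  refine natDegree_sum_le_of_forall_le _ _ fun j hj => ?_
  have hj' : j ≤ n := Nat.lt_succ_iff.1 (Finset.mem_range.1 hj)
  have h1 : ((X - 1 : ℚ[X]) ^ (2 * j)).natDegree ≤ 2 * j := by
    have := natDegree_pow_le (p := (X - 1 : ℚ[X])) (n := 2 * j)
    have h2 : (X - 1 : ℚ[X]).natDegree ≤ 1 := by compute_degree
    nlinarith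
  have h3 : ((X ^ 2 + X + 1 : ℚ[X]) ^ (n - j)).natDegree ≤ 2 * (n - j) := by
    have := natDegree_pow_le (p := (X ^ 2 + X + 1 : ℚ[X])) (n := n - j)
    have h2 : (X ^ 2 + X + 1 : ℚ[X]).natDegree ≤ 2 := by compute_degree
    nlinarith
  refine (natDegree_C_mul_le _ _).trans ((natDegree_mul_le).trans ?_)
  omega

lemma hom_dvd (n : ℕ) (T : ℚ[X]) (h0 : T.coeff 0 = 0) : (X - 1) ∣ hom n T := by
  unfold hom
  refine Finset.dvd_sum fun j _ => ?_
  rcases j with _ | j
  · rw [h0]; simp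
  · refine Dvd.dvd.mul_left ?_ _
    refine Dvd.dvd.mul_right ?_ _
    exact dvd_pow_self _ (by omega)

lemma card_skip (n : ℕ) (E : ℚ[X]) (hE : E.natDegree ≤ 6 * n + 4) (hs : Skip E) :
    E.support.card ≤ 4 * n + 4 := by
  have h1 : E.support ⊆ (Finset.range (4 * n + 4)).image (fun i => 3 * (i / 2) + i % 2) := by
    intro e he
    have h2 := le_natDegree_of_mem_supp e he
    have h3 : e % 3 ≠ 2 := by
      intro h
      have h4 := hs (e / 3)
      have h5 : 3 * (e / 3) + 2 = e := by omega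
      rw [h5] at h4
      exact (mem_support_iff.1 he) h4
    rw [Finset.mem_image]
    refine ⟨2 * (e / 3) + e % 3, ?_, ?_⟩
    · rw [Finset.mem_range]; omega
    · omega
  have h2 := Finset.card_le_card h1
  have h3 := Finset.card_image_le (s := Finset.range (4 * n + 4)) (f := fun i => 3 * (i / 2) + i % 2)
  rw [Finset.card_range] at h3
  omega

lemma wv_inj : Function.Injective (fun m : ℕ => wv ((m : ℚ) + 2)) := by
  intro a b hab
  simp only [wv] at hab
  have h1 := qpos ((a : ℚ) + 2)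
  have h2 := qpos ((b : ℚ) + 2)
  rw [div_eq_div_iff h1.ne' h2.ne'] at hab
  have h3 : 3 * (((a : ℚ) + 2) - ((b : ℚ) + 2)) * (((a : ℚ) + 2) * ((b : ℚ) + 2) - 1) = 0 := by
    linear_combination hab
  have h4 : (0 : ℚ) < ((a : ℚ) + 2) * ((b : ℚ) + 2) - 1 := by
    have := Nat.cast_nonneg (α := ℚ) a
    have := Nat.cast_nonneg (α := ℚ) b
    nlinarith
  rcases mul_eq_zero.1 h3 with h | h
  · have : (a : ℚ) = b := by linarith
    exact_mod_cast this
  · exact absurd h h4.ne'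

theorem T_U (hF : S_FEW) : S_U := by
  intro n P Q hP hQ ⟨EP, hEP, hEP'⟩ ⟨EQ, hEQ, hEQ'⟩
  set T : ℚ[X] := C (P.eval 0) * Q - C (Q.eval 0) * P with hT
  have hTd : T.natDegree ≤ n := by
    refine (natDegree_sub_le _ _).trans (max_le ?_ ?_)
    · exact (natDegree_C_mul_le _ _).trans hQ
    · exact (natDegree_C_mul_le _ _).trans hP
  have hT0 : T.coeff 0 = 0 := by
    rw [coeff_zero_eq_eval_zero, hT, eval_sub, eval_mul, eval_mul, eval_C, eval_C]; ring
  set E : ℚ[X] := C (P.eval 0) * EQ - C (Q.eval 0) * EP with hE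
  have hEs : Skip E := by
    intro k
    rw [hE, coeff_sub, coeff_C_mul, coeff_C_mul, hEQ k, hEP k]; ring
  have hEeq : E = (X ^ 2 - 1) * (X - 1) ^ (4 * n + 2) * hom n T := by
    refine Polynomial.funext fun v => ?_
    rw [hE, eval_sub, eval_mul, eval_mul, eval_C, eval_C, hEP', hEQ', eval_mul, hom_eval n T hTd, hT]
    simp only [eval_mul, eval_pow, eval_sub, eval_X, eval_one, eval_C]
    ring
  have hdeg : E.natDegree ≤ 6 * n + 4 := by
    rw [hEeq]
    have h1 : (X ^ 2 - 1 : ℚ[X]).natDegree ≤ 2 := by compute_degree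
    have h2 : ((X - 1 : ℚ[X]) ^ (4 * n + 2)).natDegree ≤ 4 * n + 2 := by
      have := natDegree_pow_le (p := (X - 1 : ℚ[X])) (n := 4 * n + 2)
      have h2 : (X - 1 : ℚ[X]).natDegree ≤ 1 := by compute_degree
      nlinarith
    have h3 := hom_deg n T
    have h4 := natDegree_mul_le (p := (X ^ 2 - 1 : ℚ[X]) * (X - 1) ^ (4 * n + 2)) (q := hom n T)
    have h5 := natDegree_mul_le (p := (X ^ 2 - 1 : ℚ[X])) (q := (X - 1) ^ (4 * n + 2))
    omega
  have hdvd : (X - 1) ^ (4 * n + 4) ∣ E := by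
    rw [hEeq]
    obtain ⟨r, hr⟩ := hom_dvd n T hT0
    rw [hr]
    refine ⟨(X + 1) * r, ?_⟩
    ring
  have hE0 := hF E (4 * n + 4) (card_skip n E hdeg hEs) hdvd
  have hr0 : hom n T = 0 := by
    rw [hEeq] at hE0
    rcases mul_eq_zero.1 hE0 with h | h
    · exfalso
      rcases mul_eq_zero.1 h with h | h
      · have := congrArg (eval (2 : ℚ)) h
        simp at this
        norm_num at this
      · have := congrArg (eval (2 : ℚ)) h
        simp at this
        norm_num at this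
    · exact h
  have hroot : ∀ v : ℚ, T.eval (wv v) = 0 := by
    intro v
    have h1 := hom_eval n T hTd v
    rw [hr0, eval_zero] at h1
    rcases mul_eq_zero.1 h1.symm with h | h
    · exact absurd h (pow_ne_zero _ (qpos v).ne')
    · exact h
  have hT00 : T = 0 := by
    refine eq_zero_of_infinite_isRoot T ?_
    exact Set.infinite_of_injective_forall_mem wv_inj fun m => hroot _
  exact sub_eq_zero.1 (hT ▸ hT00)

end Pool.Agent.W597.OS
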